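import Pool.Agent.Q5.SG.Stm2

/-!
# Project SG (helper5), job DG
-/

set_option autoImplicit false

namespace Pool.Agent.Q25.SG

open NumberField Module Pool.Agent.Y18.LC Pool.Agent.Q5.SG IsDedekindDomain

variable {p : ℕ} [Fact p.Prime] {K : Type} [Field K] [NumberField K]

/-- the prime ideal of the embedding `σ` -/
noncomputable def PI (σ : K →+* ℂ_[p]) : Ideal (𝓞 K) where
  carrier := {a | ‖σ (a : K)‖ < 1}
  add_mem' := by
    intro a b ha hb
    have h1 : σ ((a + b : 𝓞 K) : K) = σ (a : K) + σ (b : K) := by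
      rw [← map_add]
      exact congrArg σ (map_add (algebraMap (𝓞 K) K) a b)
    change ‖σ ((a + b : 𝓞 K) : K)‖ < 1
    rw [h1]
    exact (IsUltrametricDist.norm_add_le_max _ _).trans_lt (max_lt ha hb)
  zero_mem' := by
    change ‖σ ((0 : 𝓞 K) : K)‖ < 1
    have h1 : ((0 : 𝓞 K) : K) = 0 := map_zero (algebraMap (𝓞 K) K)
    rw [h1, map_zero, norm_zero]
    exact one_pos
  smul_mem' := by
    intro a b hb
    have h1 : σ ((a * b : 𝓞 K) : K) = σ (a : K) * σ (b : K) := by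
      rw [← map_mul]
      exact congrArg σ (map_mul (algebraMap (𝓞 K) K) a b)
    change ‖σ ((a * b : 𝓞 K) : K)‖ < 1
    rw [h1, norm_mul]
    exact mul_lt_one_of_nonneg_of_lt_one_right (norm_int_le σ a) (norm_nonneg _) hb

theorem mem_PI (σ : K →+* ℂ_[p]) (a : 𝓞 K) : a ∈ PI σ ↔ ‖σ (a : K)‖ < 1 := Iff.rfl

theorem norm_p : ‖((p : ℕ) : ℂ_[p])‖ = (p : ℝ)⁻¹ := by
  have h2 := PadicComplex.norm_extends' p ((p : ℕ) : ℚ_[p])
  rw [Padic.norm_p] at h2
  rw [← h2]
  congr 1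
  exact (map_natCast (algebraMap ℚ_[p] ℂ_[p]) p).symm

theorem p_mem_PI (σ : K →+* ℂ_[p]) : ((p : ℕ) : 𝓞 K) ∈ PI σ := by
  rw [mem_PI]
  have h1 : (((p : ℕ) : 𝓞 K) : K) = ((p : ℕ) : K) := map_natCast (algebraMap (𝓞 K) K) p
  rw [h1, map_natCast, norm_p]
  have hp : (1 : ℝ) < p := by exact_mod_cast (Fact.out : p.Prime).one_lt
  exact inv_lt_one_of_one_lt₀ hp

theorem PI_prime (σ : K →+* ℂ_[p]) : (PI σ).IsPrime := by
  refine ⟨?_, ?_⟩
  · intro h
    have h1 : (1 : 𝓞 K) ∈ PI σ := by rw [h]; exact Submodule.mem_top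
    rw [mem_PI] at h1
    have h2 : ((1 : 𝓞 K) : K) = 1 := map_one (algebraMap (𝓞 K) K)
    rw [h2, map_one, norm_one] at h1
    exact lt_irrefl _ h1
  · intro a b hab
    rw [mem_PI] at hab
    have h1 : σ ((a * b : 𝓞 K) : K) = σ (a : K) * σ (b : K) := by
      rw [← map_mul]
      exact congrArg σ (map_mul (algebraMap (𝓞 K) K) a b)
    rw [h1, norm_mul] at hab
    by_contra hcon
    rw [not_or, mem_PI, mem_PI, not_lt, not_lt] at hcon
    have h2 := mul_le_mul hcon.1 hcon.2 zero_le_one (norm_nonneg _)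
    rw [one_mul] at h2
    exact absurd hab (not_lt.2 h2)

theorem PI_ne_bot (σ : K →+* ℂ_[p]) : PI σ ≠ ⊥ := by
  intro h
  have h1 := p_mem_PI σ
  rw [h, Submodule.mem_bot] at h1
  have : (p : ℕ) = 0 := by exact_mod_cast h1
  exact (Fact.out : p.Prime).ne_zero this

theorem PI_maximal (σ : K →+* ℂ_[p]) : (PI σ).IsMaximal :=
  (PI_prime σ).isMaximal (PI_ne_bot σ)

open Classical in
/-- the elements small at all embeddings of `S` -/
noncomputable def SI (S : Set (K →+* ℂ_[p])) : Ideal (𝓞 K) := S.toFinset.inf (fun σ => PI σ)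

theorem mem_SI (S : Set (K →+* ℂ_[p])) (a : 𝓞 K) : a ∈ SI S ↔ ∀ σ ∈ S, ‖σ (a : K)‖ < 1 := by
  classical
  unfold SI
  rw [Submodule.mem_finsetInf]
  constructor
  · intro h σ hσ
    exact h σ (Set.mem_toFinset.2 hσ)
  · intro h σ hσ
    exact h σ (Set.mem_toFinset.1 hσ)

theorem exists_of_SI_le (S : Set (K →+* ℂ_[p])) (P : Ideal (𝓞 K)) (hP : P.IsPrime) (h : SI S ≤ P) :
    ∃ σ ∈ S, PI σ = P := by
  classical
  unfold SI at h
  obtain ⟨σ, hσ, hle⟩ := (hP.inf_le').1 h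
  exact ⟨σ, Set.mem_toFinset.1 hσ, (PI_maximal σ).eq_of_le hP.ne_top hle⟩

theorem absNorm_comap (f : 𝓞 K ≃+* 𝓞 K) (I : Ideal (𝓞 K)) :
    Ideal.absNorm (I.comap (f : 𝓞 K →+* 𝓞 K)) = Ideal.absNorm I := by
  rw [Ideal.absNorm_apply, Ideal.absNorm_apply, Submodule.cardQuot_apply, Submodule.cardQuot_apply]
  apply Nat.card_congr
  exact (Ideal.quotientEquiv (I.comap (f : 𝓞 K →+* 𝓞 K)) I f
    (Ideal.map_comap_of_surjective (f : 𝓞 K →+* 𝓞 K) f.surjective I).symm).toEquiv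

theorem dg : Pool.Agent.Q5.SG.J_DG := by
  intro hPS hAB p _ F K _ _ _ _ _ _ _ hFK hUn S hS hPC
  classical
  have hp : p.Prime := Fact.out
  have : Algebra.IsQuadraticExtension F K := ⟨hFK⟩
  have : IsCMField K := IsCMField.ofCMExtension F K
  -- the conjugation
  obtain ⟨c, hne⟩ : ∃ c : K ≃ₐ[F] K, c ≠ 1 := by
    have h1 : Fintype.card (K ≃ₐ[F] K) = 2 := by
      have : IsGalois F K := inferInstance
      rw [← hFK, ← Nat.card_eq_fintype_card]
      exact IsGalois.card_aut_eq_finrank F K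
    by_contra hcon
    push Not at hcon
    have h2 : Fintype.card (K ≃ₐ[F] K) ≤ 1 := Fintype.card_le_one_iff.2 (fun a b => by
      rw [hcon a, hcon b])
    omega
  have hIJ : SI S ⊓ SI (Sᶜ) = Ideal.span {((p : ℕ) : 𝓞 K)} := by
    apply le_antisymm
    · rintro a ⟨ha, hb⟩
      have h1 : ∀ σ : K →+* ℂ_[p], ‖σ (a : K)‖ < 1 := by
        intro σ
        by_cases hσ : σ ∈ S
        · exact (mem_SI S a).1 ha σ hσ
        · exact (mem_SI Sᶜ a).1 hb σ hσ
      have h2 : a ∈ (Ideal.span {((p : ℕ) : 𝓞 K)}).radical := by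
        rw [Ideal.radical_eq_sInf, Submodule.mem_sInf]
        rintro P ⟨hPle, hPp⟩
        have hpP : ((p : ℕ) : 𝓞 K) ∈ P := hPle (Ideal.mem_span_singleton_self _)
        have hPne : P ≠ ⊥ := by
          intro h
          rw [h, Submodule.mem_bot] at hpP
          have : (p : ℕ) = 0 := by exact_mod_cast hpP
          exact hp.ne_zero this
        obtain ⟨σ, hσ⟩ := hPS p K ⟨P, hPp, hPne⟩ hpP
        exact (hσ a).2 (h1 σ)
      exact hUn h2
    · rw [Ideal.span_le, Set.singleton_subset_iff]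
      refine ⟨(mem_SI _ _).2 fun σ _ => p_mem_PI σ, (mem_SI _ _).2 fun σ _ => p_mem_PI σ⟩
  have hsup : SI S ⊔ SI (Sᶜ) = ⊤ := by
    by_contra hcon
    obtain ⟨P, hP, hle⟩ := Ideal.exists_le_maximal _ hcon
    obtain ⟨σ, hσ, h1⟩ := exists_of_SI_le S P hP.isPrime (le_sup_left.trans hle)
    obtain ⟨τ, hτ, h2⟩ := exists_of_SI_le Sᶜ P hP.isPrime (le_sup_right.trans hle)
    have h3 : ∀ x : K, ‖τ x‖ = ‖σ x‖ := by
      apply hAB p K σ τ
      intro x hx
      have : x ∈ PI τ := by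
        rw [h2, ← h1]
        exact hx
      exact this
    exact hτ (hPC σ hσ τ h3)
  have hJ : SI (Sᶜ) = (SI S).comap ((RingOfIntegers.mapRingEquiv c.toRingEquiv : 𝓞 K ≃+* 𝓞 K) : 𝓞 K →+* 𝓞 K) := by
    ext a
    rw [Ideal.mem_comap, mem_SI, mem_SI]
    constructor
    · intro h σ hσ
      have h1 : σ.comp (c : K →+* K) ∉ S := (hS c hne σ).1 hσ
      exact h _ h1
    · intro h σ hσ
      have h1 : (σ.comp (c.symm : K →+* K)) ∈ S := by
        rw [hS c hne]
        have h2 : (σ.comp (c.symm : K →+* K)).comp (c : K →+* K) = σ := by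
          ext x
          exact congrArg σ (c.symm_apply_apply x)
        rw [h2]
        exact hσ
      have h3 := h _ h1
      have h4 : (σ.comp (c.symm : K →+* K)) (c (a : K)) = σ (a : K) :=
        congrArg σ (c.symm_apply_apply (a : K))
      rw [← h4]
      exact h3
  refine ⟨SI S, mem_SI S, ?_⟩
  have hn1 : Ideal.absNorm (SI (Sᶜ)) = Ideal.absNorm (SI S) := by
    rw [hJ]
    exact absNorm_comap _ _
  have hn2 : Ideal.absNorm (SI S) * Ideal.absNorm (SI (Sᶜ)) = p ^ finrank ℚ K := by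
    rw [← map_mul, Ideal.mul_eq_inf_of_coprime hsup, hIJ]
    rw [Ideal.absNorm_span_singleton]
    have h1 : ((p : ℕ) : 𝓞 K) = algebraMap ℤ (𝓞 K) (p : ℤ) := by simp
    rw [h1, Algebra.norm_algebraMap, Int.natAbs_pow, Int.natAbs_natCast, RingOfIntegers.rank]
  rw [hn1] at hn2
  have hfr : finrank ℚ K = finrank ℚ F * 2 := by
    have : IsScalarTower ℚ F K := IsScalarTower.of_algebraMap_eq' (Subsingleton.elim _ _)
    rw [← hFK, Module.finrank_mul_finrank]
  rw [hfr, pow_mul, ← pow_two] at hn2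
  exact Nat.pow_left_injective (n := 2) (by norm_num) hn2

end Pool.Agent.Q25.SG
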