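import Mathlib
import Pool.Agent.W289.SL.Emb

/-!
# An element of a number field which is integral outside p and has norm at most one at all
embeddings in ℂ_p is integral
-/

set_option autoImplicit false

namespace Pool.Agent.Q25.SG

open NumberField

variable {p : ℕ} [Fact p.Prime]

theorem norm_ratCast (r : ℚ) : ‖(r : ℂ_[p])‖ = ‖(r : ℚ_[p])‖ := by
  rw [← PadicComplex.norm_extends' p (r : ℚ_[p])]
  congr 1
  exact (map_ratCast (algebraMap ℚ_[p] ℂ_[p]) r).symm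

/-- a rational number with denominator a power of `p` and `p`-adic norm at most one is an integer -/
theorem rat_int (r : ℚ) (n : ℤ) (k : ℕ) (h1 : (p : ℚ) ^ k * r = n) (h2 : ‖(r : ℂ_[p])‖ ≤ 1) :
    ∃ m : ℤ, (m : ℚ) = r := by
  have hp : p.Prime := Fact.out
  have hp0 : (p : ℚ) ≠ 0 := by exact_mod_cast hp.ne_zero
  rw [norm_ratCast] at h2
  have h3 : ‖(n : ℚ_[p])‖ ≤ (p : ℝ) ^ (-(k : ℤ)) := by
    have h4 : (n : ℚ_[p]) = (p : ℚ_[p]) ^ k * (r : ℚ_[p]) := by
      have := congrArg (fun t : ℚ => (t : ℚ_[p])) h1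
      push_cast at this
      exact this.symm
    rw [h4, norm_mul, norm_pow, Padic.norm_p]
    have h5 : ((p : ℝ)⁻¹) ^ k = (p : ℝ) ^ (-(k : ℤ)) := by
      rw [zpow_neg, zpow_natCast, inv_pow]
    rw [h5]
    have : (0 : ℝ) ≤ (p : ℝ) ^ (-(k : ℤ)) := by positivity
    nlinarith [norm_nonneg (r : ℚ_[p])]
  rw [Padic.norm_int_le_pow_iff_dvd] at h3
  obtain ⟨m, hm⟩ := h3
  refine ⟨m, ?_⟩
  rw [hm] at h1
  push_cast at h1
  exact (mul_left_cancel₀ (pow_ne_zero k hp0) h1).symm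

/-- norm at most one at all embeddings -/
theorem norm_trace_le {F : Type} [Field F] [NumberField F] (z : F)
    (h : ∀ τ : F →+* ℂ_[p], ‖τ z‖ ≤ 1) : ‖((Algebra.trace ℚ F z : ℚ) : ℂ_[p])‖ ≤ 1 := by
  have h1 := trace_eq_sum_embeddings (K := ℚ) (L := F) ℂ_[p] (x := z)
  have h2 : ((Algebra.trace ℚ F z : ℚ) : ℂ_[p]) = ∑ σ : F →ₐ[ℚ] ℂ_[p], σ z := by
    rw [← h1]
    rfl
  rw [h2]
  refine IsUltrametricDist.norm_sum_le_of_forall_le_of_nonneg zero_le_one ?_
  intro σ _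
  exact h (σ : F →+* ℂ_[p])

theorem isIntegral_of_emb {F : Type} [Field F] [NumberField F] (y : F) (M : ℕ)
    (hM : IsIntegral ℤ ((p : F) ^ M * y)) (h : ∀ τ : F →+* ℂ_[p], ‖τ y‖ ≤ 1) :
    IsIntegral ℤ y := by
  classical
  let D : FractionalIdeal (nonZeroDivisors (𝓞 F)) F := FractionalIdeal.dual ℤ ℚ 1
  have hD : ∀ k, y ^ k ∈ D := by
    intro k
    refine (FractionalIdeal.mem_dual (A := ℤ) (K := ℚ) (L := F) (B := 𝓞 F) (I := 1) one_ne_zero).2 ?_
    intro a ha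
    rw [FractionalIdeal.mem_one_iff] at ha
    obtain ⟨b, rfl⟩ := ha
    rw [Algebra.traceForm_apply]
    have hint : IsIntegral ℤ (((p : F) ^ M * y) ^ k * (algebraMap (𝓞 F) F b)) :=
      (hM.pow k).mul (RingOfIntegers.isIntegral_coe b)
    have htr := Algebra.isIntegral_trace (L := ℚ) hint
    obtain ⟨n, hn⟩ := IsIntegrallyClosed.isIntegral_iff.1 htr
    have h3 : (p : ℚ) ^ (M * k) * Algebra.trace ℚ F (y ^ k * (algebraMap (𝓞 F) F b)) = n := by
      have h4 : ((p : F) ^ M * y) ^ k * (algebraMap (𝓞 F) F b) =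
          ((p : ℚ) ^ (M * k)) • (y ^ k * (algebraMap (𝓞 F) F b)) := by
        rw [Algebra.smul_def, map_pow, map_natCast, mul_pow, ← pow_mul, mul_assoc]
      rw [h4, map_smul, smul_eq_mul] at hn
      rw [← hn]
      rfl
    obtain ⟨m, hm⟩ := rat_int (p := p) _ n (M * k) h3 (norm_trace_le _ (fun τ => by
      rw [map_mul, map_pow, norm_mul, norm_pow]
      have h5 : ‖τ (algebraMap (𝓞 F) F b)‖ ≤ 1 := Pool.Agent.W289.SL.norm_emb_le τ b
      exact mul_le_one₀ (pow_le_one₀ (norm_nonneg _) (h τ)) (norm_nonneg _) h5))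
    exact ⟨m, hm⟩
  have hN : IsNoetherian (𝓞 F) D := FractionalIdeal.isNoetherian D
  have hS : (Subalgebra.toSubmodule (Algebra.adjoin (𝓞 F) {y})) ≤ (D : Submodule (𝓞 F) F) := by
    rw [Algebra.adjoin_eq_span, Submodule.span_le]
    intro z hz
    obtain ⟨k, rfl⟩ := Submonoid.mem_closure_singleton.1 hz
    exact hD k
  have hfg := isNoetherian_submodule.1 hN _ hS
  have hint : IsIntegral (𝓞 F) y :=
    IsIntegral.of_mem_of_fg (Algebra.adjoin (𝓞 F) {y}) hfg y (Algebra.self_mem_adjoin_singleton _ y)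
  exact isIntegral_trans y hint

/-- divisibility by a power of `p` from the norms at the embeddings -/
theorem dvd_of_emb {F : Type} [Field F] [NumberField F] (x : 𝓞 F) (M : ℕ)
    (h : ∀ τ : F →+* ℂ_[p], ‖τ (x : F)‖ ≤ ((p : ℝ)⁻¹) ^ M) : (p : 𝓞 F) ^ M ∣ x := by
  have hp : p.Prime := Fact.out
  have hpF : (p : F) ≠ 0 := by exact_mod_cast hp.ne_zero
  have hy : (p : F) ^ M * ((x : F) / (p : F) ^ M) = x := by
    field_simp
  have hint : IsIntegral ℤ ((x : F) / (p : F) ^ M) := by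
    refine isIntegral_of_emb (p := p) _ M (by rw [hy]; exact RingOfIntegers.isIntegral_coe x) ?_
    intro τ
    rw [map_div₀, map_pow, map_natCast, norm_div, norm_pow]
    have h1 : ‖((p : ℕ) : ℂ_[p])‖ = (p : ℝ)⁻¹ := by
      have h2 := PadicComplex.norm_extends' p ((p : ℕ) : ℚ_[p])
      rw [Padic.norm_p] at h2
      rw [← h2]
      congr 1
      norm_cast
    rw [h1]
    have hpos : (0 : ℝ) < ((p : ℝ)⁻¹) ^ M := by
      have : (0 : ℝ) < p := by exact_mod_cast hp.pos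
      positivity
    exact (div_le_one hpos).2 (h τ)
  obtain ⟨z, hz⟩ : ∃ z : 𝓞 F, algebraMap (𝓞 F) F z = (x : F) / (p : F) ^ M := ⟨⟨_, hint⟩, rfl⟩
  refine ⟨z, ?_⟩
  apply RingOfIntegers.ext
  have h2 : algebraMap (𝓞 F) F ((p : 𝓞 F) ^ M * z) = (x : F) := by
    rw [map_mul, map_pow, map_natCast, hz]
    exact hy
  exact h2.symm

end Pool.Agent.Q25.SG
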