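import Pool.Agent.Q5.SG.Stm2
import Pool.Agent.Y944.LC.TA
import Pool.Agent.Y419.LC.SIG
import Pool.Agent.Q25.SG.IntEmb

/-!
# Project SG (helper5), job UK
-/

set_option autoImplicit false

namespace Pool.Agent.Q25.SG

open NumberField Module Pool.Agent.Y18.LC Pool.Agent.Q5.SG Pool.Agent.Y419.LC.SigP

/-- the nontrivial automorphism of a CM extension -/
theorem exists_conj (F K : Type) [Field F] [NumberField F] [Field K] [NumberField K]
    [IsTotallyReal F] [IsTotallyComplex K] [Algebra F K] [IsCMField K]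
    [Algebra.IsQuadraticExtension F K] :
    ∃ cK : K ≃ₐ[F] K, cK ≠ 1 ∧ ∀ x : K, cK x = IsCMField.complexConj K x := by
  let cK : K ≃ₐ[F] K := AlgEquiv.ofRingEquiv (f := (IsCMField.complexConj K).toRingEquiv) (by
    intro x
    have h2 : algebraMap F K x ∈ maximalRealSubfield K :=
      (CMExtension.equivMaximalRealSubfield F K x).2
    exact (IsCMField.complexConj_eq_self_iff K _).2 h2)
  refine ⟨cK, ?_, fun x => rfl⟩
  intro h
  obtain ⟨φ⟩ : Nonempty (K →+* ℂ) := inferInstance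
  have h1 : ComplexEmbedding.IsReal φ := by
    rw [ComplexEmbedding.isReal_iff]
    ext x
    rw [ComplexEmbedding.conjugate_coe_eq, ← IsCMField.complexEmbedding_complexConj K φ]
    have h3 : cK x = x := by rw [h]; rfl
    exact congrArg φ h3
  exact IsTotallyComplex.complexEmbedding_not_isReal _ h1

theorem uk : Pool.Agent.Q5.SG.S_UK := by
  intro p _ hp2 F K _ _ _ _ _ _ _ hFK hUn hLeo S hS
  have hp : p.Prime := Fact.out
  have : Algebra.IsQuadraticExtension F K := ⟨hFK⟩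
  have : IsCMField K := IsCMField.ofCMExtension F K
  obtain ⟨cK, hne, hcK⟩ := exists_conj F K
  have htorsK : ∀ ζ : (𝓞 K)ˣ, ζ ^ p = 1 → ζ = 1 := by
    intro ζ hζ
    apply Units.ext
    exact no_torsion' hp hp2 hUn 1 (by rw [pow_one, ← Units.val_pow_eq_pow_val, hζ, Units.val_one])
  have htorsF : ∀ ζ : (𝓞 F)ˣ, ζ ^ p = 1 → ζ = 1 := by
    intro ζ hζ
    have h1 := htorsK (Units.map (algebraMap (𝓞 F) (𝓞 K)).toMonoidHom ζ)
      (by rw [← map_pow, hζ, map_one])
    have h2 := congrArg Units.val h1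
    apply Units.ext
    apply FaithfulSMul.algebraMap_injective (𝓞 F) (𝓞 K)
    rw [Units.val_one, map_one]
    exact h2
  obtain ⟨M, hM⟩ := Pool.Agent.Y944.LC.ta F p htorsF hLeo 1
  refine ⟨M, fun u hu => ?_⟩
  obtain ⟨e, he⟩ := mem_EU.1 hu.1
  set N := Units.torsionOrder K with hN
  have hcop : N.Coprime p := by
    rw [Nat.coprime_comm, Nat.Prime.coprime_iff_not_dvd hp]
    intro hd
    obtain ⟨x, hx⟩ := exists_prime_orderOf_dvd_card' (G := Units.torsion K) p hd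
    have h1 : x ^ p = 1 := by rw [← hx]; exact pow_orderOf_eq_one x
    have h2 : (x : (𝓞 K)ˣ) = 1 := htorsK _ (congrArg Subtype.val h1)
    have h3 : x = 1 := Subtype.ext h2
    rw [h3, orderOf_one] at hx
    exact hp.one_lt.ne hx
  -- e^N is fixed by the conjugation
  set e' : (𝓞 K)ˣ := Additive.toMul (Pool.Agent.W289.SL.unitHom (cc K) (Additive.ofMul e)) with he'
  have hquot : (e / e') ^ N = 1 := by
    have h1 : ((IsCMField.unitsMulComplexConjInv K e : Units.torsion K) : (𝓞 K)ˣ) = e / e' := by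
      rw [IsCMField.unitsMulComplexConjInv_apply]
      rfl
    rw [← h1]
    exact Pool.Agent.Y944.LC.torsion_pow K _ (IsCMField.unitsMulComplexConjInv K e).2
  have hee : e ^ N = e' ^ N := by
    rw [div_pow] at hquot
    exact div_eq_one.1 hquot
  have hfix : IsCMField.complexConj K ((e ^ N : (𝓞 K)ˣ) : 𝓞 K) = ((e ^ N : (𝓞 K)ˣ) : 𝓞 K) := by
    have h1 : (((e ^ N : (𝓞 K)ˣ) : 𝓞 K) : K) = ((e : 𝓞 K) : K) ^ N := by
      rw [Units.val_pow_eq_pow_val]
      exact map_pow (algebraMap (𝓞 K) K) _ _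
    have h2 : (((e' ^ N : (𝓞 K)ˣ) : 𝓞 K) : K) = (IsCMField.complexConj K ((e : 𝓞 K) : K)) ^ N := by
      rw [Units.val_pow_eq_pow_val]
      exact map_pow (algebraMap (𝓞 K) K) _ _
    rw [h1, map_pow, ← h2, ← hee, h1]
  obtain ⟨v, hv⟩ := fixed_mem (E := F) (e ^ N) hfix
  set v' : (𝓞 F)ˣ := Additive.toMul v with hv'
  have hve : algebraMap F K ((v' : 𝓞 F) : F) = (u : K) ^ N := by
    have h1 := congrArg (fun t : Additive (𝓞 K)ˣ => (((Additive.toMul t : (𝓞 K)ˣ) : 𝓞 K) : K)) hv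
    simp only [Pool.Agent.W289.SL.unitInc_apply] at h1
    have h2 : (((e ^ N : (𝓞 K)ˣ) : 𝓞 K) : K) = (u : K) ^ N := by
      rw [Units.val_pow_eq_pow_val, ← he]
      exact map_pow (algebraMap (𝓞 K) K) _ _
    exact h1.trans h2
  have hcl : u ^ N ∈ CU S K (M + 1) := pow_mem hu N
  have hemb : ∀ σ : K →+* ℂ_[p], ‖σ ((u : K) ^ N) - 1‖ ≤ ((p : ℝ)⁻¹) ^ (M + 1) := by
    intro σ
    by_cases hσ : σ ∈ S
    · have := hcl.2 σ hσ
      rwa [Units.val_pow_eq_pow_val] at this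
    · have h1 : σ.comp (cK : K →+* K) ∈ S := by
        by_contra h2
        exact hσ ((hS cK hne σ).2 h2)
      have h2 := hcl.2 (σ.comp (cK : K →+* K)) h1
      rw [Units.val_pow_eq_pow_val] at h2
      have h3 : (σ.comp (cK : K →+* K)) ((u : K) ^ N) = σ ((u : K) ^ N) := by
        have h4 : cK ((u : K) ^ N) = (u : K) ^ N := by
          rw [← hve, cK.commutes]
        exact congrArg σ h4
      rwa [h3] at h2
  have hdvd : (p : 𝓞 F) ^ M ∣ (v' : 𝓞 F) - 1 := by
    apply dvd_of_emb (p := p)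
    intro τ
    obtain ⟨σ, hσ⟩ := exists_ext (H := K) τ
    have h1 : τ (((v' : 𝓞 F) - 1 : 𝓞 F) : F) = σ ((u : K) ^ N) - 1 := by
      have h2 : (((v' : 𝓞 F) - 1 : 𝓞 F) : F) = ((v' : 𝓞 F) : F) - 1 := by
        exact (map_sub (algebraMap (𝓞 F) F) _ _).trans (by rw [map_one])
      rw [h2, map_sub, map_one, ← hve, ← hσ]
      rfl
    rw [h1]
    refine (hemb σ).trans ?_
    have hp1 : (1 : ℝ) ≤ p := by exact_mod_cast hp.one_lt.le
    exact pow_le_pow_of_le_one (by positivity) (inv_le_one_of_one_le₀ hp1) (Nat.le_succ M)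
  obtain ⟨w, hw⟩ := hM v' hdvd
  rw [pow_one] at hw
  have hWE : ik F K w ∈ EU K := ik_EU w
  have hW : (ik F K w) ^ p = u ^ N := by
    ext
    rw [Units.val_pow_eq_pow_val, Units.val_pow_eq_pow_val, coe_ik, ← hve, ← map_pow]
    congr 1
    have h1 := congrArg (fun t : (𝓞 F)ˣ => ((t : 𝓞 F) : F)) hw
    simp only [Units.val_pow_eq_pow_val] at h1
    rw [← h1]
    exact (map_pow (algebraMap (𝓞 F) F) _ _).symm
  have hb := Nat.gcd_eq_gcd_ab N p
  rw [Nat.Coprime.gcd_eq_one hcop] at hb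
  refine ⟨(ik F K w) ^ (Nat.gcdA N p) * u ^ (Nat.gcdB N p),
    mul_mem (zpow_mem hWE _) (zpow_mem hu.1 _), ?_⟩
  have h1 : ((ik F K w) ^ (Nat.gcdA N p)) ^ p = u ^ ((N : ℤ) * Nat.gcdA N p) := by
    rw [← zpow_natCast, ← zpow_mul, mul_comm, zpow_mul, zpow_natCast, hW, ← zpow_natCast u N,
      ← zpow_mul]
  have h2 : (u ^ (Nat.gcdB N p)) ^ p = u ^ ((p : ℤ) * Nat.gcdB N p) := by
    rw [← zpow_natCast, ← zpow_mul, mul_comm]
  rw [mul_pow, h1, h2, ← zpow_add, ← hb, Nat.cast_one, zpow_one]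

end Pool.Agent.Q25.SG
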